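import Mathlib
import Pool.Agent.H84.LaurentProof

/-!
# Question Q1 of `MP_aa4be7_al` has a negative answer

The proof is `Pool.Agent.H84.LaurentRows.strong`: with `R = ℝ`, `d = 0`, `m = 3`, `n = 3` there is
a finitely generated graded subalgebra with a unimodular row of length `3` that is not the first
row of any invertible matrix.
-/

set_option autoImplicit false

namespace Pool.Agent.Results.MP_aa4be7_al.Counterexample

open Pool.Agent.H84.LaurentRows

/-- Q1 is false. -/
theorem result : ¬ Q1 := by
  intro h
  obtain ⟨A, hA, -, v, hv, hg⟩ := strong ℝ (RingHom.id ℝ)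
  have h3 := h ℝ 0 (by exact_mod_cast ringKrullDim_eq_zero_of_field ℝ) 3 (by norm_num) A hA 3
    (by norm_num)
  rw [h3] at hv
  obtain ⟨g, -, hgv⟩ := hv
  exact hg g hgv

end Pool.Agent.Results.MP_aa4be7_al.Counterexample
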